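import Pool.Agent.Q237.LR.Stm5

/-! Project LR, third theorem, job GAD -/

set_option autoImplicit false

namespace Pool.Agent.Q222.LR5

open MeasureTheory ProbabilityTheory Set Filter Topology Pool.Agent.Q237.LR5

/-- **GAD**: the Gaussian law has a bounded density -/
theorem gad : S_GAD := by
  intro v hv
  refine ⟨(Real.sqrt (2 * Real.pi * v))⁻¹, by positivity, ?_⟩
  rw [gaussianReal_of_var_ne_zero 0 hv, ← withDensity_const]
  refine withDensity_mono (Eventually.of_forall fun x => ?_)
  unfold gaussianPDF
  apply ENNReal.ofReal_le_ofReal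
  unfold gaussianPDFReal
  refine mul_le_of_le_one_right (by positivity) ?_
  apply Real.exp_le_one_iff.mpr
  have h1 : 0 ≤ (x - 0) ^ 2 := sq_nonneg _
  have h2 : (0 : ℝ) ≤ 2 * (v : ℝ) := by positivity
  exact div_nonpos_of_nonpos_of_nonneg (by linarith) h2

end Pool.Agent.Q222.LR5
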